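import Mathlib
import Pool.Agent.Q299.EqCont

/-!
# Automatic homeomorphicity of the polymorphism clones of reducts of pure equality

Let `C` be a topologically closed clone on `ℕ` which contains all permutations of `ℕ`; these are
exactly the polymorphism clones of structures first-order definable in `(ℕ, =)`. We prove that every
clone isomorphism of `C` onto a topologically closed clone on `ℕ` is a homeomorphism.

Outline of the proof. Let `ξ : C → D` be an isomorphism.
* Small index property of the symmetric group of `ℕ`: in the action of the permutations on the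
  domain of `D` every point `y` has a finite support.
* For an injection `e`, let `bar e` be the self-map of the domain of `D` with `bar e y = ξ(α) y`,
  `α` a permutation that agrees with `e` on a support of `y`. As `D` is closed, `bar e = ξ(a)` for some
  `a`. If the image of `e` is co-infinite then the equalities `bar (α e) = ξ(α) bar e`,
  `bar (e β) = bar e ξ(β)` force `a = e`. The general case follows. So `ξ(e) y` depends only on the
  restriction of `e` to a support of `y`, and `ξ(e)` is injective.
* Continuity of `ξ`: let `f_i → f` and `ξ(f_i)(b) ≠ c = ξ(f)(b)` for all `i`; one may assume that the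
  image of `f` is co-infinite, and then `c` has a support inside `f(A^n)`, for some finite set `A`
  that supports all entries of `b`. By Ramsey's theorem one may assume that the equality pattern of
  the `f_i` is the same on the boxes of infinite sets `A ∪ H_i`. A limit `g` of operations
  `α_i f_i σ_i` has the pattern of `f` on the box of one infinite set containing `A` and the pattern
  of `f_i` on another one, and computing `ξ(g)(b)` in both ways gives `ξ(f_i)(b) = c`.
* The inverse of `ξ` is continuous by a compactness argument (the symmetric group is oligomorphic).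
-/

set_option autoImplicit false

namespace Pool.Agent.Results.MP_0c3240_lc.EqualityClones

open Pool.Agent.Q299

/-- Operations of arity `n + 1` on `ℕ`; as a space this carries the topology of pointwise
convergence, i.e. the product topology of the discrete topology of `ℕ`. -/
abbrev Op (n : ℕ) : Type := (Fin (n + 1) → ℕ) → ℕ

/-- A set of finitary operations on `ℕ`, given by its operations of arity `n + 1`, for all `n`, is a
clone if it contains the projections and is closed under composition. -/
structure IsClone (C : ∀ n, Set (Op n)) : Prop where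
  proj : ∀ (n : ℕ) (i : Fin (n + 1)), (fun x => x i) ∈ C n
  comp : ∀ {n m : ℕ} (f : Op n) (g : Fin (n + 1) → Op m), f ∈ C n → (∀ i, g i ∈ C m) →
    (fun x => f (fun i => g i x)) ∈ C m

/-- Closed clones: in the sum topology of all finitary operations, a set is closed iff for every
arity its operations of this arity form a closed set. -/
def IsClosedClone (C : ∀ n, Set (Op n)) : Prop := IsClone C ∧ ∀ n, IsClosed (C n)

/-- A clone isomorphism: an arity-preserving bijection that sends projections to projections and
commutes with composition. No continuity is assumed. -/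
structure CloneIso (C D : ∀ n, Set (Op n)) where
  map : ∀ n, C n ≃ D n
  proj : ∀ (n : ℕ) (i : Fin (n + 1)) (h : (fun x => x i) ∈ C n),
    (map n ⟨fun x => x i, h⟩ : Op n) = fun x => x i
  comp : ∀ {n m : ℕ} (f : C n) (g : Fin (n + 1) → C m)
    (h : (fun x => (f : Op n) (fun i => (g i : Op m) x)) ∈ C m),
    (map m ⟨fun x => (f : Op n) (fun i => (g i : Op m) x), h⟩ : Op m) =
      fun y => (map n f : Op n) (fun i => (map m (g i) : Op m) y)

/-- Automatic homeomorphicity with respect to the closed clones on `ℕ`: every clone isomorphism onto
a closed clone is a homeomorphism. (For the sum topologies this means that for every arity it is a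
homeomorphism between the operations of this arity.) -/
def AutomaticHomeomorphicity (C : ∀ n, Set (Op n)) : Prop :=
  ∀ (D : ∀ n, Set (Op n)), IsClosedClone D → ∀ (ξ : CloneIso C D) (n : ℕ), IsHomeomorph (ξ.map n)

/-- The relation `R` on `ℕ` is first-order definable, without parameters, in `(ℕ, =)`: definable by a
first-order formula of the language without symbols (so equality is the only atomic formula). -/
def EqDefinable {k : ℕ} (R : Set (Fin k → ℕ)) : Prop :=
  let _ : FirstOrder.Language.empty.Structure ℕ := FirstOrder.Language.emptyStructure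
  (∅ : Set ℕ).Definable FirstOrder.Language.empty R

/-- The polymorphism clone of a relational structure with domain `ℕ`. -/
def Pol {ι : Type} {k : ι → ℕ} (R : ∀ i, Set (Fin (k i) → ℕ)) (n : ℕ) : Set (Op n) :=
  {f | ∀ (i : ι) (t : Fin (n + 1) → Fin (k i) → ℕ), (∀ j, t j ∈ R i) →
    (fun l => f (fun j => t j l)) ∈ R i}

theorem mem_of_approx {A : Type} {S : Set (A → ℕ)} (hS : IsClosed S) (f : A → ℕ)
    (h : ∀ F : Finset A, ∃ g ∈ S, ∀ x ∈ F, g x = f x) : f ∈ S := by
  rw [← hS.closure_eq, mem_closure_iff]
  intro o ho hfo
  obtain ⟨I, u, hu, hI⟩ := isOpen_pi_iff.1 ho f hfo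
  obtain ⟨g, hg, hgf⟩ := h I
  refine ⟨g, hI ?_, hg⟩
  intro x hx
  rw [hgf x hx]
  exact (hu x hx).2

theorem continuous_of_loc {A B : Type} {S : Set (A → ℕ)} {T : Set (B → ℕ)} (φ : S → T)
    (h : ∀ (f : S) (b : B), ∃ F : Finset A, ∀ g : S, (∀ x ∈ F, g.1 x = f.1 x) →
      (φ g).1 b = (φ f).1 b) : Continuous φ := by
  refine Continuous.subtype_mk (f := fun f => (φ f).1) ?_ fun f => (φ f).2
  refine continuous_pi fun b => ?_
  refine IsLocallyConstant.continuous ?_
  rw [IsLocallyConstant.iff_exists_open]
  intro f
  obtain ⟨F, hF⟩ := h f b
  refine ⟨⋂ x ∈ F, {g : S | g.1 x = f.1 x}, ?_, ?_, ?_⟩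
  · refine isOpen_biInter_finset fun x _ => ?_
    have hc : Continuous fun g : S => g.1 x := (continuous_apply x).comp continuous_subtype_val
    exact (isOpen_discrete ({f.1 x} : Set ℕ)).preimage hc
  · simp
  · intro g hg
    apply hF
    simpa using hg

/-- The general theorem. -/
theorem main (C : ∀ n, Set (Op n)) (hC : IsClosedClone C)
    (hperm : ∀ α : Equiv.Perm ℕ, (fun x => α (x 0)) ∈ C 0) : AutomaticHomeomorphicity C := by
  classical
  intro D hD ξ
  let X : ∀ n, Op n → Op n := fun n F => if h : F ∈ C n then (ξ.map n ⟨F, h⟩ : Op n) else F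
  have hX : ∀ (n : ℕ) (F : Op n) (h : F ∈ C n), X n F = (ξ.map n ⟨F, h⟩ : Op n) :=
    fun n F h => dif_pos h
  have S : EqClone.Sit C D X :=
    { cproj := hC.1.proj
      ccomp := hC.1.comp
      cclosed := fun n f => mem_of_approx (hC.2 n) f
      perm := hperm
      dclosed := fun n f => mem_of_approx (hD.2 n) f
      mapsTo := fun n f hf => by
        rw [hX n f hf]
        exact (ξ.map n ⟨f, hf⟩).2
      inj := fun n f hf g hg h => by
        rw [hX n f hf, hX n g hg] at h
        have := (ξ.map n).injective (Subtype.ext h)
        exact congrArg Subtype.val this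
      surj := fun n h hh => by
        obtain ⟨f, hf⟩ := (ξ.map n).surjective ⟨h, hh⟩
        refine ⟨f.1, f.2, ?_⟩
        rw [hX n f.1 f.2]
        exact congrArg Subtype.val hf
      proj := fun n i => by
        rw [hX n _ (hC.1.proj n i)]
        exact ξ.proj n i _
      comp := fun {n m} f g hf hg => by
        rw [hX m _ (hC.1.comp f g hf hg), hX n f hf,
          ξ.comp ⟨f, hf⟩ (fun i => ⟨g i, hg i⟩) (hC.1.comp f g hf hg)]
        funext y
        have : (fun i => X m (g i) y) = fun i => (ξ.map m ⟨g i, hg i⟩ : Op m) y := by
          funext i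
          rw [hX m (g i) (hg i)]
        rw [this] }
  intro n
  have hcont : Continuous (ξ.map n) := by
    apply continuous_of_loc
    intro f b
    obtain ⟨F, hF⟩ := S.cont f.1 f.2 b
    refine ⟨F, fun g hg => ?_⟩
    have := hF g.1 g.2 hg
    rwa [hX n _ g.2, hX n _ f.2] at this
  have hcont' : Continuous (ξ.map n).symm := by
    apply continuous_of_loc
    intro f b
    obtain ⟨F, hF⟩ := S.cont_inv ((ξ.map n).symm f).1 ((ξ.map n).symm f).2 b
    refine ⟨F, fun g hg => ?_⟩
    apply hF _ ((ξ.map n).symm g).2
    intro x hx
    rw [hX n _ ((ξ.map n).symm g).2, hX n _ ((ξ.map n).symm f).2]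
    simpa using hg x hx
  exact (Homeomorph.mk (ξ.map n) hcont hcont').isHomeomorph

/-- Sets definable in `(ℕ, =)` are invariant under permutations. -/
theorem perm_mem {k : ℕ} {R : Set (Fin k → ℕ)} (hR : EqDefinable R) (α : Equiv.Perm ℕ)
    (t : Fin k → ℕ) (ht : t ∈ R) : (fun l => α (t l)) ∈ R := by
  let _ : FirstOrder.Language.empty.Structure ℕ := FirstOrder.Language.emptyStructure
  have hR : (∅ : Set ℕ).Definable FirstOrder.Language.empty R := hR
  rw [Set.empty_definable_iff] at hR
  obtain ⟨φ, rfl⟩ := hR
  exact (FirstOrder.Language.StrongHomClass.realize_formula (L := FirstOrder.Language.empty) α φ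
    (v := t)).2 ht

theorem pol_closed {ι : Type} {k : ι → ℕ} (R : ∀ i, Set (Fin (k i) → ℕ)) : IsClosedClone (Pol R) := by
  refine ⟨⟨?_, ?_⟩, ?_⟩
  · intro n i j t ht
    exact ht i
  · intro n m f g hf hg i t ht
    exact hf i (fun j l => g j (fun p => t p l)) fun j => hg j i t ht
  · intro n
    have : Pol R n = ⋂ (i : ι) (t : Fin (n + 1) → Fin (k i) → ℕ) (_ : ∀ j, t j ∈ R i),
        {f : Op n | (fun l => f (fun j => t j l)) ∈ R i} := by
      ext f
      simp only [Pol, Set.mem_iInter]
      rfl
    rw [this]
    refine isClosed_iInter fun i => isClosed_iInter fun t => isClosed_iInter fun _ => ?_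
    have hc : Continuous fun (f : Op n) (l : Fin (k i)) => f (fun j => t j l) :=
      continuous_pi fun l => continuous_apply _
    exact (isClosed_discrete (R i)).preimage hc

/-- **Main result.** (1) For every relational structure with domain `ℕ` all of whose relations are
first-order definable without parameters in `(ℕ, =)`, the polymorphism clone is a closed clone with
automatic homeomorphicity with respect to the closed clones on `ℕ`. (2) The same for every closed
clone on `ℕ` that contains all permutations. -/
theorem result :
    (∀ (ι : Type) (k : ι → ℕ) (R : ∀ i, Set (Fin (k i) → ℕ)),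
      (∀ i, EqDefinable (R i)) → IsClosedClone (Pol R) ∧ AutomaticHomeomorphicity (Pol R)) ∧
    (∀ C : ∀ n, Set (Op n), IsClosedClone C → (∀ α : Equiv.Perm ℕ, (fun x => α (x 0)) ∈ C 0) →
      AutomaticHomeomorphicity C) := by
  refine ⟨fun ι k R hR => ⟨pol_closed R, main _ (pol_closed R) ?_⟩, main⟩
  intro α i t ht
  exact perm_mem (hR i) α (t 0) (ht 0)

end Pool.Agent.Results.MP_0c3240_lc.EqualityClones
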